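import Mathlib

/-!
# Project SY (MP_126465_gt): symplectic forms on Euclidean space standard at infinity

`E` is a finite-dimensional real normed space, a `2`-form is a function `B : E → E →L[ℝ] E →L[ℝ] ℝ`.

Final theorems (`HeadA`, `HeadB`, `HeadC` in `Pool/Agent/Helper91/SY/Heads.lean`): a symplectic form standard
at infinity is standard, by a compactly supported diffeomorphism, iff two translations (or two linear
functions) can be modified in a compact set so that they commute; absolute version for one non-trapping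
translation (or linear function); invariance under the rotations of one complex coordinate.

All statements below are about general `E`; the packets are independent unless said otherwise.
-/

set_option autoImplicit false

open Set Filter Topology
open scoped ContDiff

namespace Pool.Agent.Helper91.SY

section
variable {E : Type} [NormedAddCommGroup E] [NormedSpace ℝ E]

/-- symplectic forms -/
structure Symp (B : E → E →L[ℝ] E →L[ℝ] ℝ) : Prop where
  smooth : ContDiff ℝ ∞ B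
  alt : ∀ x u, B x u u = 0
  closed : ∀ x u v w, fderiv ℝ B x u v w - fderiv ℝ B x v u w + fderiv ℝ B x w u v = 0
  nondeg : ∀ x u, (∀ v, B x u v = 0) → u = 0

/-- `φ^* B' = B` -/
def Pull (φ : E → E) (B B' : E → E →L[ℝ] E →L[ℝ] ℝ) : Prop :=
  ∀ x u v, B' (φ x) (fderiv ℝ φ x u) (fderiv ℝ φ x v) = B x u v

/-- `B` is the constant form `B0` outside the ball of radius `R` -/
def Far (R : ℝ) (B : E → E →L[ℝ] E →L[ℝ] ℝ) (B0 : E →L[ℝ] E →L[ℝ] ℝ) : Prop :=
  ∀ x, R ≤ ‖x‖ → B x = B0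

/-- `g` is the translation by `e` outside the ball of radius `R` -/
def Tr (R : ℝ) (e : E) (g : E ≃ E) : Prop := ∀ x, R ≤ ‖x‖ → g x = x + e

/-- smooth diffeomorphisms -/
def Sm (g : E ≃ E) : Prop := ContDiff ℝ ∞ (fun x => g x) ∧ ContDiff ℝ ∞ (fun x => g.symm x)

/-- the map `ψ(z) = g^N (z - N e)` (any large `N`) -/
def Wave (R : ℝ) (e : E) (τ : E →L[ℝ] ℝ) (g : E ≃ E) (ψ : E → E) : Prop :=
  ∀ (z : E) (N : ℕ), τ z - N < -(‖τ‖ * R) → ψ z = (fun x => g x)^[N] (z - (N : ℝ) • e)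

/-- `Φ` is a smooth complete flow of the vector field `X` -/
structure Flow (X : E → E) (Φ : ℝ → E → E) : Prop where
  smooth : ContDiff ℝ ∞ (fun p : ℝ × E => Φ p.1 p.2)
  zero : ∀ x, Φ 0 x = x
  deriv : ∀ t x, HasDerivAt (fun s => Φ s x) (X (Φ t x)) t

/-- `X` is the Hamiltonian vector field of `f` -/
def Ham (B : E → E →L[ℝ] E →L[ℝ] ℝ) (f : E → ℝ) (X : E → E) : Prop :=
  ∀ x v, B x (X x) v = fderiv ℝ f x v

end

/-! ## Block A: diffeomorphisms -/

/-- PACKET GI (global inversion).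
Proof.  Trivial if `E` is a subsingleton.  By the inverse function theorem (`ContDiff` with bijective
derivative: `HasStrictFDerivAt.map_nhds_eq_of_equiv`, `toOpenPartialHomeomorph`) `φ` is an open map and
injective near every point; and `φ` is proper: `‖x‖ ≤ max R ‖φ x‖`.
Surjective: the range is open, closed (a convergent sequence `φ(x_k)` has `x_k` bounded, take a convergent
subsequence) and nonempty, `E` is connected.
Injective: let `N = {z | ∃ p ≠ q, φ p = z ∧ φ q = z}`.  `N` is open (disjoint neighbourhoods `U` of `p`, `V` of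
`q`: `φ(U) ∩ φ(V) ⊆ N` is a neighbourhood of `z`); `N` is closed (`φ p_k = φ q_k = z_k → z`: subsequences
`p_k → p`, `q_k → q`, `φ p = φ q = z`, and `p ≠ q` because `φ` is injective near `p`); `N ≠ univ`: if
`‖z‖ > R` and `‖z‖ > ‖φ x‖` for all `‖x‖ ≤ R` then `φ p = z` gives `‖p‖ > R`, `z = φ p = p`.
So `N = ∅`. -/
def StmtGI : Prop := ∀ (E : Type) [NormedAddCommGroup E] [NormedSpace ℝ E] [FiniteDimensional ℝ E]
  (φ : E → E) (R : ℝ), ContDiff ℝ ∞ φ → (∀ x, Function.Injective (fderiv ℝ φ x)) →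
  (∀ x, R ≤ ‖x‖ → φ x = x) → Function.Bijective φ

/-- PACKET IV (the inverse is smooth).
Proof.  `e = Equiv.ofBijective`.  At `y = φ x`: the local inverse of the inverse function theorem
(`ContDiffAt.to_localInverse`) is smooth at `y` and agrees with `e.symm` near `y` (`φ` is injective). -/
def StmtIV : Prop := ∀ (E : Type) [NormedAddCommGroup E] [NormedSpace ℝ E] [FiniteDimensional ℝ E]
  (φ : E → E), ContDiff ℝ ∞ φ → (∀ x, Function.Injective (fderiv ℝ φ x)) → Function.Bijective φ →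
  ∃ e : E ≃ E, (∀ x, e x = φ x) ∧ Sm e

/-- PACKET PS (the wave map of a symplectic map which is a translation at infinity).
Proof.  If `τ w < -(‖τ‖ R)` then `‖w‖ > R`, so `g w = w + e`.  So for `N` with `τ z - N < -(‖τ‖ R)`:
`g (z - (N+1) e) = z - N e`, and `g^[N] (z - N e)` is the same for all such `N` (induction).  Let `ψ z` be this
value with `N = ⌈τ z + ‖τ‖ R⌉₊ + 1`.  For fixed `N` the condition is open in `z`, so `ψ` is locally equal to
`g^[N] (· - N e)`: smooth, and `D ψ(z) = D g^[N] (z - N e)`.  `Pull (g^[N]) B B` by induction, and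
`B (z - N e) = B0` as `‖z - N e‖ ≥ R`: so `Pull ψ (fun _ => B0) B`.  Injectivity of `D ψ(z)`: if `D ψ(z) u = 0`
then `B0 u v = B (ψ z) 0 _ = 0` for all `v`, and `B0 = B x` for any `x` with `‖x‖ ≥ R` (there is one as
`τ e = 1`, so `e ≠ 0`), so `u = 0` by nondegeneracy. -/
def StmtPS : Prop := ∀ (E : Type) [NormedAddCommGroup E] [NormedSpace ℝ E] [FiniteDimensional ℝ E]
  (B : E → E →L[ℝ] E →L[ℝ] ℝ) (B0 : E →L[ℝ] E →L[ℝ] ℝ) (R : ℝ) (e : E) (τ : E →L[ℝ] ℝ) (g : E ≃ E),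
  0 ≤ R → Symp B → Far R B B0 → τ e = 1 → Sm g → Pull (fun x => g x) B B → Tr R e g →
  ∃ ψ : E → E, ContDiff ℝ ∞ ψ ∧ (∀ x, Function.Injective (fderiv ℝ ψ x)) ∧
    Pull ψ (fun _ => B0) B ∧ Wave R e τ g ψ

/-- PACKET RC (WALKING AROUND THE COMPACT SET: the wave map is the identity at infinity).
Proof.  Let `m = ‖τ‖ R`.  (If `|τ w| > m` or `|τ₂ w| > ‖τ₂‖ R` then `‖w‖ > R`.)
(i) `τ z < -m`: `N = 0`.
(ii) `|τ z| ≤ m` and `‖z‖ ≥ R + 2 m ‖e‖`: let `N` be with `τ z - N < -m`.  For `1 ≤ j ≤ N`: either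
`τ (z - j e) < -m` or `j ≤ 2m` and `‖z - j e‖ ≥ ‖z‖ - 2m ‖e‖ ≥ R`; so `g (z - j e) = z - (j-1) e` and
`g^[N] (z - N e) = z`.
(iii) `τ z > m`: let `N` be as before and `M : ℕ` with `τ₂ z + M > ‖τ₂‖ R`.  The points
`z - N e + j e₂` have `τ < -m`, so `g₂^[M] (z - N e) = z - N e + M e₂`; the points `z + M e₂ - j e` have
`τ₂ > ‖τ₂‖ R`, so `g^[N] (z - N e + M e₂) = z + M e₂`; the points `z + j e₂` have `τ > m`, so
`g₂^[M] z = z + M e₂`.  Hence `g₂^[M] (ψ z) = g₂^[M] (g^[N] (z - N e)) = g^[N] (g₂^[M] (z - N e))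
= z + M e₂ = g₂^[M] z`, and `ψ z = z` as `g₂` is injective. -/
def StmtRC : Prop := ∀ (E : Type) [NormedAddCommGroup E] [NormedSpace ℝ E]
  (R : ℝ) (e e₂ : E) (τ τ₂ : E →L[ℝ] ℝ) (g g₂ : E ≃ E) (ψ : E → E),
  0 ≤ R → τ e = 1 → τ e₂ = 0 → τ₂ e = 0 → τ₂ e₂ = 1 → Tr R e g → Tr R e₂ g₂ →
  (∀ x, g (g₂ x) = g₂ (g x)) → Wave R e τ g ψ → ∃ R' : ℝ, ∀ z, R' ≤ ‖z‖ → ψ z = z

/-- PACKET TP (no trapped orbit: the wave map is bijective).
Proof.  Injective: `ψ z = ψ z'`, take a common `N`, `g^[N]` is injective.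
Surjective: `m = ‖τ‖ R`, `p_k = g.symm^[k] p`.  If `τ p_k < -m` for some `k`, let `z = p_k + k e`: then
`τ z - k < -m` and `ψ z = g^[k] p_k = p`.  Suppose `τ p_k ≥ -m` for all `k`.  With `R₁ = R + ‖e‖`: if
`‖x‖ ≥ R₁` then `‖x - e‖ ≥ R`, `g (x - e) = x`, `g.symm x = x - e`.  Let `S = sup_{‖x‖ ≤ R₁} ‖g.symm x‖`
(compact) and `C₀ = max ‖p‖ S`.  By induction `p_k = y - j e` with `‖y‖ ≤ C₀`, `j : ℕ`.  So
`-m ≤ τ p_k = τ y - j`, `j ≤ ‖τ‖ C₀ + m`, `‖p_k‖ ≤ C := C₀ + (‖τ‖ C₀ + m) ‖e‖`.  Let `p_{k_i} → q`; for every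
`l : ℤ`, `g^l q = lim g^l p_{k_i} = lim p_{k_i - l}` has norm `≤ C`: a bounded orbit, contradiction. -/
def StmtTP : Prop := ∀ (E : Type) [NormedAddCommGroup E] [NormedSpace ℝ E] [FiniteDimensional ℝ E]
  (R : ℝ) (e : E) (τ : E →L[ℝ] ℝ) (g : Equiv.Perm E) (ψ : E → E),
  0 ≤ R → τ e = 1 → Continuous (fun x => g x) → Continuous (fun x => g.symm x) → Tr R e g →
  Wave R e τ g ψ → (∀ p : E, ¬ ∃ C : ℝ, ∀ k : ℤ, ‖(g ^ k) p‖ ≤ C) → Function.Bijective ψ

/-- PACKET MS (a function which does not increase along `g` is invariant).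
Proof.  Let `b` be a basis of `E`, `D(x) = |det (B x (b i) (b j))|^(1/2) > 0`, continuous; `D = D₀` constant for
`‖x‖ ≥ R`; `vol` an additive Haar measure.  `Pull g B B` gives `|det Dg(x)| D(g x) = D(x)`, so
`∫_S h(g x) D(x) dx = ∫_{g(S)} h D` (`MeasureTheory.integral_image_eq_integral_abs_det_fderiv_smul`).
Let `ρ ≥ R + ‖e‖`, `S = closedBall 0 ρ`; then `g(S) = closedBall e ρ` (if `‖x‖ ≥ R`: `g x - e = x`; if
`‖x‖ < R` and `‖g x - e‖ > ρ` then `g (g x - e) = g x`, `x = g x - e`, contradiction).  Hence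
`∫_S (f(g x) - f(x)) D(x) dx = ∫_{closedBall e ρ} f D - ∫_{closedBall 0 ρ} f D
= ∫_{closedBall e ρ} ℓ D₀ - ∫_{closedBall 0 ρ} ℓ D₀` (the integrands `f D` and `ℓ D₀` agree for `‖x‖ ≥ R`, and
both balls contain the ball of radius `R`) `= D₀ ∫_S (ℓ(x + e) - ℓ(x)) dx = 0`.  The integrand
`(f(g x) - f(x)) D(x)` is continuous and `≤ 0`, so it is `0` on the interior of `S`; `ρ` is arbitrary. -/
def StmtMS : Prop := ∀ (E : Type) [NormedAddCommGroup E] [NormedSpace ℝ E] [FiniteDimensional ℝ E]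
  (B : E → E →L[ℝ] E →L[ℝ] ℝ) (B0 : E →L[ℝ] E →L[ℝ] ℝ) (R : ℝ) (e : E) (ℓ : E →L[ℝ] ℝ)
  (g : E ≃ E) (f : E → ℝ), Symp B → Far R B B0 → Sm g → Pull (fun x => g x) B B → Tr R e g →
  Continuous f → (∀ x, R ≤ ‖x‖ → f x = ℓ x) → ℓ e = 0 → (∀ x, f (g x) ≤ f x) → ∀ x, f (g x) = f x

/-! ## Block B: flows -/

/-- PACKET NM (the Nemytskii operator is smooth).
Proof.  Write `N_f α = f ∘ α`.  By induction on `k`: for all `F` and all smooth `f : E → F`, `N_f` is `C^k`.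
`k = 0`: `ContinuousMap.continuous_postcomp` (the norm topology of `C(I, E)` is the compact-open one).
`k + 1`: `N_f` has at `α` the derivative `β ↦ (s ↦ f'(α s) (β s))`, i.e. `M (N_{f'} α)` with the continuous
linear map `M : C(I, E →L F) → (C(I, E) →L C(I, F))`: for `‖β‖` small,
`‖f(α s + β s) - f(α s) - f'(α s) β s‖ ≤ ‖β s‖ sup_{r ∈ [0,1]} ‖f'(α s + r β s) - f'(α s)‖` (mean value
inequality), and the sup tends to `0` uniformly in `s` by the case `k = 0` for `f'` and compactness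
(`f'` is uniformly continuous near the compact set `α(I)`).  `N_{f'}` is `C^k` by induction
(`contDiff_succ_iff_hasFDerivAt` or `contDiff_succ_iff_fderiv`). -/
def StmtNM : Prop := ∀ (E F : Type) [NormedAddCommGroup E] [NormedSpace ℝ E] [NormedAddCommGroup F]
  [NormedSpace ℝ F] (f : E → F) (hf : ContDiff ℝ ∞ f),
  ContDiff ℝ ∞ (fun α : C(unitInterval, E) => (⟨f, hf.continuous⟩ : C(E, F)).comp α)

/-- PACKET GE (global existence).
Proof.  `X` is bounded and (its derivative is continuous and `0` for `‖x‖ > R`, hence bounded) Lipschitz.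
Picard-Lindelof with a uniform time step `δ` at every point, extension step by step
(`Mathlib/Geometry/Manifold/IntegralCurve/UniformTime.lean`,
`exists_isMIntegralCurve_of_isMIntegralCurveOn`, or by hand; see also `Pool/Agent/Helper40/SR/Glode.lean`). -/
def StmtGE : Prop := ∀ (E : Type) [NormedAddCommGroup E] [NormedSpace ℝ E] [FiniteDimensional ℝ E]
  (X : E → E) (R : ℝ) (e : E), ContDiff ℝ ∞ X → (∀ x, R ≤ ‖x‖ → X x = e) →
  ∃ Φ : ℝ → E → E, (∀ x, Φ 0 x = x) ∧ ∀ t x, HasDerivAt (fun s => Φ s x) (X (Φ t x)) t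

/-- PACKET SM (smooth dependence on the initial value; from NM).
Proof.  `X` is bounded by `M` and Lipschitz (see GE), so solutions are unique
(`ODE_solution_unique_univ`), `Φ (s + t) x = Φ s (Φ t x)`, `‖Φ t x - x‖ ≤ M |t|`.
(1) `Φ` is `C^∞` at `(0, x₀)`.  `𝒞 = C(I, E)` is a Banach space, `J : 𝒞 →L 𝒞`, `(J β)(s) = ∫_0^s β`.  The map
`G ((δ, x), α) = ((δ, x), α - const x - δ • J (N_X α))` of `(ℝ × E) × 𝒞` to itself is smooth (NM); its derivative at
`((0, x₀), const x₀)` is `((δ', x'), β) ↦ ((δ', x'), β - const x' - δ' • J (N_X (const x₀)))`, an isomorphism.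
By the inverse function theorem `G` is injective near this point, with a smooth local inverse `G⁻¹`.
For `(δ, x)` near `(0, x₀)` let `α_{δ,x}(s) = Φ (s δ) x`: it is in `𝒞`, satisfies
`G ((δ, x), α_{δ,x}) = ((δ, x), 0)` (fundamental theorem of calculus) and
`‖α_{δ,x} - const x₀‖ ≤ M |δ| + ‖x - x₀‖`, so it equals the second component of `G⁻¹ ((δ, x), 0)`, which is smooth
in `(δ, x)`; so is `Φ δ x = α_{δ,x}(1)`.
(2) Fix `x₀` and let `T = {t | Φ is C^∞ at (t, x₀)}`, an open set containing `0`.  It is closed: if `t_*` is in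
the closure, `Φ` is `C^∞` in a neighbourhood `(-ε, ε) × U` of `(0, Φ t_* x₀)`; take `t ∈ T` so close to `t_*` that
`|t_* - t| < ε` and `Φ t x₀ ∈ U`; near `(t_*, x₀)`: `Φ t' x = Φ (t' - t) (Φ t x)`, a composition.  So
`T = ℝ`. -/
def StmtSM : Prop := ∀ (E : Type) [NormedAddCommGroup E] [NormedSpace ℝ E] [FiniteDimensional ℝ E]
  (X : E → E) (R : ℝ) (e : E) (Φ : ℝ → E → E), ContDiff ℝ ∞ X → (∀ x, R ≤ ‖x‖ → X x = e) →
  (∀ x, Φ 0 x = x) → (∀ t x, HasDerivAt (fun s => Φ s x) (X (Φ t x)) t) → Flow X Φ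

/-- PACKET HV (the Hamiltonian vector field).
Proof.  `B x : E →L (E →L ℝ)` is injective between spaces of the same dimension, so invertible;
`X x = (B x).inverse (fderiv ℝ f x)`, smooth by `contDiffAt_map_inverse`. -/
def StmtHV : Prop := ∀ (E : Type) [NormedAddCommGroup E] [NormedSpace ℝ E] [FiniteDimensional ℝ E]
  (B : E → E →L[ℝ] E →L[ℝ] ℝ) (f : E → ℝ), Symp B → ContDiff ℝ ∞ f →
  ∃ X : E → E, ContDiff ℝ ∞ X ∧ Ham B f X

/-- PACKET FP (a Hamiltonian flow preserves `B` and its Hamiltonian function).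
Proof.  `d/dt f(Φ t x) = df(X) = B(X, X) = 0`.  For fixed `x, u, v` let `U_t = D(Φ t)(x) u`,
`V_t = D(Φ t)(x) v`, `W(t) = B(Φ t x)(U_t, V_t)`.  As `Φ` is `C²` (symmetry of the second derivative)
`U_t' = DX(Φ t x) U_t`.  Hence, at `y = Φ t x`, `W' = D_X B(U, V) + B(DX U, V) + B(U, DX V)`.
Differentiating `B y (X y) V = df(y) V` in the direction `U`:
`D_U B(X, V) + B(DX U, V) = D²f(U, V)`; similarly `D_V B(X, U) + B(DX V, U) = D²f(V, U)`.  Closedness:
`D_X B(U, V) - D_U B(X, V) + D_V B(X, U) = 0`.  So `W' = D²f(U, V) - D²f(V, U) = 0` (`B` is antisymmetric, as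
`B x u u = 0`), and `W(t) = W(0) = B x u v`. -/
def StmtFP : Prop := ∀ (E : Type) [NormedAddCommGroup E] [NormedSpace ℝ E] [FiniteDimensional ℝ E]
  (B : E → E →L[ℝ] E →L[ℝ] ℝ) (f : E → ℝ) (X : E → E) (Φ : ℝ → E → E), Symp B → ContDiff ℝ ∞ f →
  ContDiff ℝ ∞ X → Ham B f X → Flow X Φ → ∀ t, Pull (Φ t) B B ∧ ∀ x, f (Φ t x) = f x

/-- PACKET CM (commuting flows; from FP).
Proof.  Let `q = Φ₁ s x`.  `d/ds f₂(Φ₁ s x) = df₂(X₁) = B(X₂, X₁) = -c`, so `f₂(Φ₁ s x) = f₂(x) - c s` and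
`df₂(q) (D(Φ₁ s)(x) w) = df₂(x) w`.  Let `U = D(Φ₁ s)(x) (X₂ x)`.  `D(Φ₁ s)(x)` is bijective (its inverse is
`D(Φ₁ (-s))(q)`; or: injective because `Pull`, and finite dimension).  For `v = D(Φ₁ s)(x) w`:
`B q U v = B x (X₂ x) w = df₂(x) w = df₂(q) v`; so `U = X₂ q` (nondegeneracy).  Hence
`t ↦ Φ₁ s (Φ₂ t x)` is an integral curve of `X₂` which starts at `Φ₁ s x`, so it equals `Φ₂ t (Φ₁ s x)`
(uniqueness: `X₂` is Lipschitz, `ODE_solution_unique_univ`). -/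
def StmtCM : Prop := ∀ (E : Type) [NormedAddCommGroup E] [NormedSpace ℝ E] [FiniteDimensional ℝ E]
  (B : E → E →L[ℝ] E →L[ℝ] ℝ) (f₁ f₂ : E → ℝ) (X₁ X₂ : E → E) (Φ₁ Φ₂ : ℝ → E → E) (R : ℝ) (e₂ : E)
  (c : ℝ), Symp B → ContDiff ℝ ∞ f₁ → ContDiff ℝ ∞ f₂ → ContDiff ℝ ∞ X₁ → ContDiff ℝ ∞ X₂ →
  Ham B f₁ X₁ → Ham B f₂ X₂ → Flow X₁ Φ₁ → Flow X₂ Φ₂ → (∀ x, R ≤ ‖x‖ → X₂ x = e₂) →
  (∀ x, B x (X₁ x) (X₂ x) = c) → ∀ s t x, Φ₁ s (Φ₂ t x) = Φ₂ t (Φ₁ s x)

/-- PACKET TO (the flow of a function which is linear at infinity; from GE, SM, HV, FP).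
Proof.  `X` from HV.  If `‖x‖ ≥ R + 1`: near `x` we have `f = ℓ`, so `fderiv ℝ f x = ℓ` and
`B0 (X x) v = ℓ v = B0 e v`, `X x = e` (`B0 = B x` is nondegenerate).  Flow from GE, SM.  `g = Φ 1`, with
inverse `Φ (-1)` (group law by uniqueness).  If `‖x‖ ≥ R + 1 + ‖e‖` then `t ↦ x + t e` is an integral curve
on `[0, 1]`, so `Φ 1 x = x + e` (uniqueness on `[0, 1]`, `X` is Lipschitz).  `R' = R + 1 + ‖e‖`. -/
def StmtTO : Prop := ∀ (E : Type) [NormedAddCommGroup E] [NormedSpace ℝ E] [FiniteDimensional ℝ E]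
  (B : E → E →L[ℝ] E →L[ℝ] ℝ) (B0 : E →L[ℝ] E →L[ℝ] ℝ) (R : ℝ) (f : E → ℝ) (ℓ : E →L[ℝ] ℝ) (e : E),
  0 ≤ R → Symp B → Far R B B0 → ContDiff ℝ ∞ f → (∀ x, R ≤ ‖x‖ → f x = ℓ x) → (∀ v, B0 e v = ℓ v) →
  ∃ (X : E → E) (Φ : ℝ → E → E) (g : E ≃ E), ContDiff ℝ ∞ X ∧ Ham B f X ∧
    (∀ x, R + 1 ≤ ‖x‖ → X x = e) ∧ Flow X Φ ∧ (∀ t, Pull (Φ t) B B) ∧ (∀ x, g x = Φ 1 x) ∧
    (∀ x, g.symm x = Φ (-1) x) ∧ Sm g ∧ Pull (fun x => g x) B B ∧ Tr (R + 1 + ‖e‖) e g

/-! ## Block C: rotations -/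

/-- the coordinates `p, q` dual to the vectors `a, b` -/
structure Plane {E : Type} [NormedAddCommGroup E] [NormedSpace ℝ E] (a b : E) (p q : E →L[ℝ] ℝ) :
    Prop where
  pa : p a = 1
  pb : p b = 0
  qa : q a = 0
  qb : q b = 1

section
variable {E : Type} [NormedAddCommGroup E] [NormedSpace ℝ E]

/-- the generator of the rotations of the plane `⟨a, b⟩` (which fix `ker p ∩ ker q`) -/
noncomputable def Jr (a b : E) (p q : E →L[ℝ] ℝ) : E →L[ℝ] E := p.smulRight b - q.smulRight a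

/-- the rotation by the angle `θ` -/
noncomputable def Rot (a b : E) (p q : E →L[ℝ] ℝ) (θ : ℝ) : E →L[ℝ] E :=
  ContinuousLinearMap.id ℝ E + (Real.cos θ - 1) • (p.smulRight a + q.smulRight b)
    + Real.sin θ • (p.smulRight b - q.smulRight a)

end

/-- PACKET PC (Poincare lemma for `1`-forms on `E`).
Proof.  Mathlib, `Mathlib/MeasureTheory/Integral/CurveIntegral/Poincare.lean`
(`Convex.exists_forall_hasFDerivAt..` for the convex set `univ`), or `H x = ∫_0^1 α (t x) x dt`. -/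
def StmtPC : Prop := ∀ (E : Type) [NormedAddCommGroup E] [NormedSpace ℝ E] [FiniteDimensional ℝ E]
  (α : E → E →L[ℝ] ℝ), ContDiff ℝ ∞ α → (∀ x u v, fderiv ℝ α x u v = fderiv ℝ α x v u) →
  ∃ H : E → ℝ, ContDiff ℝ ∞ H ∧ ∀ x, fderiv ℝ H x = α x

/-- PACKET RI (the moment map exists; from PC).
Proof.  `J = Jr a b p q`, `d/dθ Rot θ = J (Rot θ)`, `Rot 0 = id` (use `Plane`).  Differentiate
`B (Rot θ x) (Rot θ u) (Rot θ v) = B x u v` at `θ = 0`: `D_{Jx} B(u, v) + B x (J u) v + B x u (J v) = 0`.  Let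
`α x = -B x (J x)`.  `D α(u)(v) = -D_u B(J x, v) - B x (J u) v`, so
`D α(u)(v) - D α(v)(u) = -D_u B(Jx, v) + D_v B(Jx, u) - B(J u, v) + B(J v, u)
= -D_{Jx} B(u, v) - B(J u, v) - B(u, J v) = 0` by closedness (`D_{Jx} B(u, v) - D_u B(Jx, v)
+ D_v B(Jx, u) = 0`) and antisymmetry.  PC gives `H`; subtract the constant `H 0`.
Invariance: `d/dθ H(Rot θ x) = dH(J (Rot θ x)) = -B(J y, J y) = 0`, `y = Rot θ x`.  On `p = q = 0`:
`J x = 0`, so `dH = 0` at the points of this subspace, and `H 0 = 0`. -/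
def StmtRI : Prop := ∀ (E : Type) [NormedAddCommGroup E] [NormedSpace ℝ E] [FiniteDimensional ℝ E]
  (B : E → E →L[ℝ] E →L[ℝ] ℝ) (a b : E) (p q : E →L[ℝ] ℝ), Symp B → Plane a b p q →
  (∀ θ, Pull (Rot a b p q θ) B B) →
  ∃ H : E → ℝ, ContDiff ℝ ∞ H ∧ (∀ x v, fderiv ℝ H x v = -B x (Jr a b p q x) v) ∧
    (∀ θ x, H (Rot a b p q θ x) = H x) ∧ ∀ x, p x = 0 → q x = 0 → H x = 0

/-- PACKET HI (the moment map at infinity and its positivity).
Proof.  `B0 (J x) v = p x B0 b v - q x B0 a v = -(p x p v + q x q v)`, so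
`fderiv ℝ H x v = p x p v + q x q v` for `‖x‖ ≥ R`.  So `H - (p² + q²)/2` is locally constant on
`{‖x‖ > R}`, which is connected (the dimension is `≥ 2`: `isConnected_compl_closedBall` or
`isPathConnected_compl_..`), hence constant there; at a point `t c`, `t` large, it is `0`.  By continuity also
for `‖x‖ = R`.
Positivity: if `H` is negative somewhere then `H` attains its minimum (it is `≥ 0` outside a compact set)
at some `y`; there `dH = 0`, so `B y (J y) = 0`, `J y = 0`, `p y = q y = 0`, `H y = 0`, contradiction.  So `H ≥ 0`; if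
`H x = 0` then `x` is a minimum, `dH(x) = 0`, `J x = 0`, `p x = q x = 0`. -/
def StmtHI : Prop := ∀ (E : Type) [NormedAddCommGroup E] [NormedSpace ℝ E] [FiniteDimensional ℝ E]
  (B : E → E →L[ℝ] E →L[ℝ] ℝ) (B0 : E →L[ℝ] E →L[ℝ] ℝ) (R : ℝ) (a b c : E) (p q : E →L[ℝ] ℝ)
  (H : E → ℝ), Symp B → Far R B B0 → Plane a b p q → c ≠ 0 → p c = 0 → q c = 0 →
  (∀ v, B0 a v = q v) → (∀ v, B0 b v = -p v) →
  ContDiff ℝ ∞ H → (∀ x v, fderiv ℝ H x v = -B x (Jr a b p q x) v) →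
  (∀ x, p x = 0 → q x = 0 → H x = 0) →
  (∀ x, R ≤ ‖x‖ → H x = (p x ^ 2 + q x ^ 2) / 2) ∧ ∀ x, (p x ≠ 0 ∨ q x ≠ 0) → 0 < H x

/-- PACKET RD (smooth division of a radial function).
Proof.  Let `k(x) = ∫_0^1 D²H(x - (1 - t) p(x) a)(a, a) dt`, smooth (differentiation under the integral,
`contDiff_parametric_intervalIntegral..` or `ContDiff` of interval integrals of smooth functions, see e.g.
`Pool/Agent/Helper38/AB/INTD.lean`).  `H(x - 2 p(x) a) = H(x)`: for the rotation by the angle `2φ` of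
the point, if `(p, q) = r (cos β, sin β)` then `x - 2 p(x) a` is the rotation of `x` by the angle `π - 2β`.
So `H` is even in the coordinate `p`, `DH(y) a = 0` if `p y = 0`, and
`DH(x) a = p(x) k(x)` (the fundamental theorem of calculus along `x - (1 - t) p(x) a`).  Invariance:
`0 = DH(x)(J x) = p(x) DH(x) b - q(x) DH(x) a`, so `DH(x) b = q(x) k(x)` if `p(x) ≠ 0`, and by continuity
always.  With `x_t = x - (1 - t) (p(x) a + q(x) b)`: `H(x_0) = 0`,
`d/dt H(x_t) = p(x) DH(x_t) a + q(x) DH(x_t) b = (p(x)² + q(x)²) t k(x_t)`, so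
`h(x) = ∫_0^1 t k(x_t) dt` is smooth and `H = (p² + q²) h`.  `h` is invariant: off the axis from
`H, p² + q²` invariant, by continuity everywhere.  Last claim: along `x + s a`, `p x = q x = 0`:
`H(x + s a) = s² h(x + s a)`, so `D²H(x)(a, a) = 2 h(x)`. -/
def StmtRD : Prop := ∀ (E : Type) [NormedAddCommGroup E] [NormedSpace ℝ E] [FiniteDimensional ℝ E]
  (a b : E) (p q : E →L[ℝ] ℝ) (H : E → ℝ), Plane a b p q → ContDiff ℝ ∞ H →
  (∀ θ x, H (Rot a b p q θ x) = H x) → (∀ x, p x = 0 → q x = 0 → H x = 0) →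
  ∃ h : E → ℝ, ContDiff ℝ ∞ h ∧ (∀ x, H x = (p x ^ 2 + q x ^ 2) * h x) ∧
    (∀ θ x, h (Rot a b p q θ x) = h x) ∧
    ∀ x, p x = 0 → q x = 0 → fderiv ℝ (fderiv ℝ H) x a a = 2 * h x

/-- PACKET HP (`h > 0`).
Proof.  Off the axis `h = H/(p² + q²) > 0`.  On the axis (`p x = q x = 0`, `J x = 0`): `h x ≥ 0` by continuity
(`h(x + s a) > 0` for `s ≠ 0`), and `2 h x = D²H(x)(a, a) = -B x (J a) a = -B x b a = B x a b` (differentiate
`DH(y)(a) = -B y (J y) a` in the direction `a` at `x`, where `J x = 0`; `J a = b`).  Suppose `B x a b = 0`.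
`Rot π` is `-1` on `⟨a, b⟩` and the identity on `ker p ∩ ker q`, and fixes `x`; so for `w ∈ ker p ∩ ker q`:
`B x b w = B x (-b) w`, `B x b w = 0`; and `B x b b = 0`, `B x b a = 0`: so `B x b = 0`, contradicting
nondegeneracy (`b ≠ 0`).  (The derivative of the linear map `Rot π` is itself.) -/
def StmtHP : Prop := ∀ (E : Type) [NormedAddCommGroup E] [NormedSpace ℝ E] [FiniteDimensional ℝ E]
  (B : E → E →L[ℝ] E →L[ℝ] ℝ) (a b : E) (p q : E →L[ℝ] ℝ) (H h : E → ℝ),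
  Symp B → Plane a b p q → (∀ θ, Pull (Rot a b p q θ) B B) → ContDiff ℝ ∞ H → ContDiff ℝ ∞ h →
  (∀ x v, fderiv ℝ H x v = -B x (Jr a b p q x) v) → (∀ x, H x = (p x ^ 2 + q x ^ 2) * h x) →
  (∀ x, (p x ≠ 0 ∨ q x ≠ 0) → 0 < H x) →
  (∀ x, p x = 0 → q x = 0 → fderiv ℝ (fderiv ℝ H) x a a = 2 * h x) → ∀ x, 0 < h x

/-- PACKET BR (the canonical pair; from HV).
Proof.  `r = √(2h)` is smooth and invariant, `f = p r`, `g = q r`.  `f² + g² = 2H`, so
`f df + g dg = dH`.  Let `X, Y` be the Hamiltonian fields of `f, g` (HV).  `B(f X + g Y, ·) = dH = -B(J x, ·)`, so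
`f X + g Y = -J x`.  `f(Rot θ x) = cos θ f(x) - sin θ g(x)` (as `p(Rot θ x) = cos θ p - sin θ q`,
`q(Rot θ x) = sin θ p + cos θ q`), so `df(J x) = -g`, `dg(J x) = f`.  Hence
`g = df(-J x) = f df(X) + g df(Y) = g B(X, Y)` (`df(X) = B(X, X) = 0`, `df(Y) = B(X, Y)`), and
`-f = dg(-J x) = f dg(X) + g dg(Y) = f B(Y, X) = -f B(X, Y)`.  So `B(X, Y) = 1` where `(f, g) ≠ 0`, i.e. off
the axis, and everywhere by continuity (the complement of the axis is dense). -/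
def StmtBR : Prop := ∀ (E : Type) [NormedAddCommGroup E] [NormedSpace ℝ E] [FiniteDimensional ℝ E]
  (B : E → E →L[ℝ] E →L[ℝ] ℝ) (a b : E) (p q : E →L[ℝ] ℝ) (H h : E → ℝ),
  Symp B → Plane a b p q → ContDiff ℝ ∞ H → ContDiff ℝ ∞ h →
  (∀ x v, fderiv ℝ H x v = -B x (Jr a b p q x) v) → (∀ x, H x = (p x ^ 2 + q x ^ 2) * h x) →
  (∀ θ x, h (Rot a b p q θ x) = h x) → (∀ x, 0 < h x) →
  ∃ X Y : E → E, ContDiff ℝ ∞ X ∧ ContDiff ℝ ∞ Y ∧ Ham B (fun x => p x * √(2 * h x)) X ∧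
    Ham B (fun x => q x * √(2 * h x)) Y ∧ ∀ x, B x (X x) (Y x) = 1

end Pool.Agent.Helper91.SY
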