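import Mathlib

/-!
# Definitions for the hand-ins on MP_126465_gt
-/

set_option autoImplicit false

open scoped ContDiff

namespace Pool.Agent.Helper91.SYD

section

variable {E : Type} [NormedAddCommGroup E] [NormedSpace ℝ E]

/-- The value of an alternating `2`-form at the vectors `u, v`. -/
def ev (a : E [⋀^Fin 2]→L[ℝ] ℝ) (u v : E) : ℝ := a ![u, v]

/-- `D_u η (v, w)` at the point `x`: the derivative of the `2`-form `η` in the direction `u`. -/
noncomputable def dform (η : E → E [⋀^Fin 2]→L[ℝ] ℝ) (x u v w : E) : ℝ :=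
  ev (fderiv ℝ η x u) v w

/-- The derivative of the map `φ` at the point `x`, applied to the vector `u`. -/
noncomputable def dmap (φ : E → E) (x u : E) : E := fderiv ℝ φ x u

/-- `a` and `b` are equal outside a compact set. -/
def AtInf {W : Type} (a b : E → W) : Prop := ∃ K : Set E, IsCompact K ∧ ∀ x, x ∉ K → a x = b x

/-- `g` is a smooth diffeomorphism. -/
def Smooth (g : E ≃ E) : Prop :=
  ContDiff ℝ ∞ (fun x => g x) ∧ ContDiff ℝ ∞ (fun x => g.symm x)

/-- `η` is a symplectic form: smooth, closed and nondegenerate. -/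
structure Symplectic (η : E → E [⋀^Fin 2]→L[ℝ] ℝ) : Prop where
  smooth : ContDiff ℝ ∞ η
  closed : ∀ x u v w : E, dform η x u v w - dform η x v u w + dform η x w u v = 0
  nondeg : ∀ x v : E, v ≠ 0 → ∃ w, ev (η x) v w ≠ 0

/-- `η` is a symplectic form, equal to the constant form `σ` outside a compact set. -/
def StandardAtInfinity (σ : E → E → ℝ) (η : E → E [⋀^Fin 2]→L[ℝ] ℝ) : Prop :=
  Symplectic η ∧ ∃ K : Set E, IsCompact K ∧ ∀ x, x ∉ K → ∀ u v : E, ev (η x) u v = σ u v

/-- `(E, η)` is symplectomorphic to `(E, σ)`: `η = φ^* σ` for a smooth diffeomorphism `φ`. -/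
def Standard (σ : E → E → ℝ) (η : E → E [⋀^Fin 2]→L[ℝ] ℝ) : Prop :=
  ∃ φ : E ≃ E, Smooth φ ∧
    ∀ x u v : E, σ (dmap (fun y => φ y) x u) (dmap (fun y => φ y) x v) = ev (η x) u v

/-- `η = φ^* σ` for a smooth diffeomorphism `φ` which is the identity outside a compact set. -/
def StandardRel (σ : E → E → ℝ) (η : E → E [⋀^Fin 2]→L[ℝ] ℝ) : Prop :=
  ∃ φ : E ≃ E, Smooth φ ∧ AtInf (fun x => φ x) (fun x => x) ∧
    ∀ x u v : E, σ (dmap (fun y => φ y) x u) (dmap (fun y => φ y) x v) = ev (η x) u v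

/-- `g^* η = η`. -/
def Preserves (η : E → E [⋀^Fin 2]→L[ℝ] ℝ) (g : E ≃ E) : Prop :=
  ∀ x u v : E, ev (η (g x)) (dmap (fun y => g y) x u) (dmap (fun y => g y) x v) = ev (η x) u v

/-- `X` is the `η`-Hamiltonian vector of the function `f` at the point `x`. -/
def HamAt (η : E → E [⋀^Fin 2]→L[ℝ] ℝ) (f : E → ℝ) (x X : E) : Prop :=
  ∀ v : E, ev (η x) X v = fderiv ℝ f x v

/-- Two vectors are linearly independent. -/
def Indep (a b : E) : Prop := LinearIndependent ℝ ![a, b]

/-- Two linear functions are linearly independent. -/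
def IndepF (l m : E →L[ℝ] ℝ) : Prop := LinearIndependent ℝ ![l, m]

/-- There are commuting smooth diffeomorphisms `g, h` of `E` which preserve `η` and are equal to the
translations by `a, b` outside a compact set. -/
def CommutingPair (η : E → E [⋀^Fin 2]→L[ℝ] ℝ) (a b : E) : Prop :=
  ∃ g h : E ≃ E, Smooth g ∧ Smooth h ∧ Preserves η g ∧ Preserves η h ∧
    AtInf (fun x => g x) (fun x => x + a) ∧ AtInf (fun x => h x) (fun x => x + b) ∧
    ∀ x, g (h x) = h (g x)

/-- The same, where `h` may be any bijection (equal to the translation by `b` outside a compact set). -/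
def CommutingPair' (η : E → E [⋀^Fin 2]→L[ℝ] ℝ) (a b : E) : Prop :=
  ∃ g h : E ≃ E, Smooth g ∧ Preserves η g ∧
    AtInf (fun x => g x) (fun x => x + a) ∧ AtInf (fun x => h x) (fun x => x + b) ∧
    ∀ x, g (h x) = h (g x)

/-- There are smooth functions `f, g`, equal to `l, m` outside a compact set, such that the `η`-Poisson
bracket of `f` and `g` takes values in the set `S` only. -/
def BracketIn (η : E → E [⋀^Fin 2]→L[ℝ] ℝ) (l m : E →L[ℝ] ℝ) (S : Set ℝ) : Prop :=
  ∃ f g : E → ℝ, ContDiff ℝ ∞ f ∧ ContDiff ℝ ∞ g ∧ AtInf f (fun x => l x) ∧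
    AtInf g (fun x => m x) ∧ ∀ x X Y : E, HamAt η f x X → HamAt η g x Y → ev (η x) X Y ∈ S

/-- The bracket of the linear functions `l, m` for the constant form `σ` is `0`. -/
def Involution (σ : E → E → ℝ) (l m : E →L[ℝ] ℝ) : Prop :=
  ∀ X Y : E, (∀ v, σ X v = l v) → (∀ v, σ Y v = m v) → σ X Y = 0

/-- For all independent vectors `a, b` there is a commuting pair. -/
def AllTranslations (η : E → E [⋀^Fin 2]→L[ℝ] ℝ) : Prop :=
  ∀ a b : E, Indep a b → CommutingPair η a b

/-- For some independent vectors `a, b` there is a commuting pair (weak form). -/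
def SomeTranslations (η : E → E [⋀^Fin 2]→L[ℝ] ℝ) : Prop :=
  ∃ a b : E, Indep a b ∧ CommutingPair' η a b

/-- For all independent linear functions `l, m` there are `f, g` as in `BracketIn` with constant bracket. -/
def AllBrackets (η : E → E [⋀^Fin 2]→L[ℝ] ℝ) : Prop :=
  ∀ l m : E →L[ℝ] ℝ, IndepF l m → ∃ c : ℝ, BracketIn η l m {c}

/-- For some independent linear functions `l, m` there are `f, g` as in `BracketIn` with constant
bracket. -/
def SomeBracket (η : E → E [⋀^Fin 2]→L[ℝ] ℝ) : Prop :=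
  ∃ l m : E →L[ℝ] ℝ, IndepF l m ∧ ∃ c : ℝ, BracketIn η l m {c}

/-- For some independent linear functions `l, m` in involution with respect to `σ` there are `f, g` as in
`BracketIn` whose bracket is nonnegative everywhere. -/
def NonnegativeBracket (σ : E → E → ℝ) (η : E → E [⋀^Fin 2]→L[ℝ] ℝ) : Prop :=
  ∃ l m : E →L[ℝ] ℝ, IndepF l m ∧ Involution σ l m ∧ BracketIn η l m (Set.Ici 0)

/-- For some linear functions `l ≠ 0, m` there are `f, g` as in `BracketIn` whose bracket is positive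
everywhere. -/
def PositiveBracket (η : E → E [⋀^Fin 2]→L[ℝ] ℝ) : Prop :=
  ∃ l m : E →L[ℝ] ℝ, l ≠ 0 ∧ BracketIn η l m (Set.Ioi 0)

/-- There is a smooth function, equal to a nonzero linear function outside a compact set, such that no
complete orbit of its `η`-Hamiltonian field is bounded. -/
def NontrappingFlow (η : E → E [⋀^Fin 2]→L[ℝ] ℝ) : Prop :=
  ∃ (f : E → ℝ) (l : E →L[ℝ] ℝ), l ≠ 0 ∧ ContDiff ℝ ∞ f ∧ AtInf f (fun x => l x) ∧
    ∀ γ : ℝ → E, Differentiable ℝ γ → (∀ t, HamAt η f (γ t) (deriv γ t)) →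
      ¬ ∃ C : ℝ, ∀ t, ‖γ t‖ ≤ C

/-- There is a smooth diffeomorphism which preserves `η`, is equal to a nontrivial translation outside a
compact set and has no bounded orbit. -/
def NontrappingMap (η : E → E [⋀^Fin 2]→L[ℝ] ℝ) : Prop :=
  ∃ (g : Equiv.Perm E) (a : E), a ≠ 0 ∧ Smooth g ∧ Preserves η g ∧
    AtInf (fun x => g x) (fun x => x + a) ∧ ∀ p : E, ¬ ∃ C : ℝ, ∀ k : ℤ, ‖(g ^ k) p‖ ≤ C

end

/-- The space `ℝ^(2n)`, with the coordinates `(x, y)`. -/
abbrev V (n : ℕ) : Type := (Fin n → ℝ) × (Fin n → ℝ)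

/-- The standard symplectic form on `ℝ^(2n)`. -/
def w0 {n : ℕ} (u v : V n) : ℝ := ∑ i : Fin n, (u.1 i * v.2 i - v.1 i * u.2 i)

/-- The rotation by the angle `θ` in the coordinates `(x_i, y_i)`. -/
noncomputable def rot {n : ℕ} (i : Fin n) (θ : ℝ) (z : V n) : V n :=
  (Function.update z.1 i (Real.cos θ * z.1 i - Real.sin θ * z.2 i),
    Function.update z.2 i (Real.sin θ * z.1 i + Real.cos θ * z.2 i))

end Pool.Agent.Helper91.SYD
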