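import Pool.Agent.Helper91.SY.NB

/-!
# Project SY: the three final theorems
-/

set_option autoImplicit false

namespace Pool.Agent.Helper91.SY

/-- HEAD A -/
theorem headA : HeadA := Pool.Agent.Helper35.SY.ha_ hAB hBA hCB nb_

end Pool.Agent.Helper91.SY
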