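import Pool.Agent.Helper91.SY.Heads
import Pool.Agent.Helper53.SY.GI
import Pool.Agent.Helper83.SY.IV
import Pool.Agent.Helper62.SY.PS
import Pool.Agent.Helper3.SY.RC
import Pool.Agent.Helper48.SY.TP
import Pool.Agent.Helper32.SY.MS
import Pool.Agent.Helper13.SY.NM
import Pool.Agent.Helper77.SY.SM
import Pool.Agent.Helper97.SZ.GE
import Pool.Agent.Helper69.SY.HV
import Pool.Agent.Helper32.SY.FP
import Pool.Agent.Helper22.SY.CM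
import Pool.Agent.Helper79.SY.TO
import Pool.Agent.Helper4.SY.PC
import Pool.Agent.Helper50.SY.RI
import Pool.Agent.Helper41.SY.HI
import Pool.Agent.Helper64.SY.RD
import Pool.Agent.Helper34.SY.HP
import Pool.Agent.Helper73.SY.BR
import Pool.Agent.Helper18.SY.CV
import Pool.Agent.Helper33.SY.CW
import Pool.Agent.Helper95.SY.CX
import Pool.Agent.Helper81.SY.AB
import Pool.Agent.Helper98.SY.BA
import Pool.Agent.Helper86.SY.CB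
import Pool.Agent.Helper35.SY.HA
import Pool.Agent.Helper35.SY.B1
import Pool.Agent.Helper81.SY.B2
import Pool.Agent.Helper49.SY.B3
import Pool.Agent.Helper5.SY.CR

/-!
# Project SY: the packets put together
-/

set_option autoImplicit false

open Set Filter Topology
open scoped ContDiff

namespace Pool.Agent.Helper91.SY

theorem hSM : StmtSM := Pool.Agent.Helper77.SY.sm_ Pool.Agent.Helper13.SY.nm_
theorem hTO : StmtTO := Pool.Agent.Helper79.SY.to_ Pool.Agent.Helper97.SZ.ge hSM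
  Pool.Agent.Helper69.SY.hv_ Pool.Agent.Helper32.SY.fp_
theorem hCM : StmtCM := Pool.Agent.Helper22.SY.cm_ Pool.Agent.Helper32.SY.fp_
theorem hCW : StmtCW := Pool.Agent.Helper33.SY.cw Pool.Agent.Helper18.SY.cv_
theorem hAB : StmtAB := Pool.Agent.Helper81.SY.ab_ Pool.Agent.Helper95.SY.cx_
theorem hBA : StmtBA := Pool.Agent.Helper98.SY.ba_ Pool.Agent.Helper53.SY.gi_
  Pool.Agent.Helper83.SY.iv_ Pool.Agent.Helper62.SY.ps_ Pool.Agent.Helper3.SY.rc_ hCW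
  Pool.Agent.Helper95.SY.cx_
theorem hCB : StmtCB := Pool.Agent.Helper86.SY.cb_ hTO hCM hCW Pool.Agent.Helper95.SY.cx_
theorem hB1 : StmtB1 := Pool.Agent.Helper35.SY.b1_ Pool.Agent.Helper83.SY.iv_
  Pool.Agent.Helper62.SY.ps_ Pool.Agent.Helper48.SY.tp hCW Pool.Agent.Helper95.SY.cx_
theorem hB2 : StmtB2 := Pool.Agent.Helper81.SY.b2_ hTO hCW Pool.Agent.Helper95.SY.cx_
theorem hB3 : StmtB3 := Pool.Agent.Helper49.SY.b3_ Pool.Agent.Helper69.SY.hv_ hCW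
theorem hCR : StmtCR := Pool.Agent.Helper5.SY.cr_ (Pool.Agent.Helper50.SY.ri_ Pool.Agent.Helper4.SY.pc_)
  Pool.Agent.Helper41.SY.hi_ Pool.Agent.Helper64.SY.rd_ Pool.Agent.Helper34.SY.hp_
  (Pool.Agent.Helper73.SY.br_ Pool.Agent.Helper69.SY.hv_) hCW

/-- HEAD B, as a chain of implications -/
theorem headB (n : ℕ) (η : Form n) (hη : StdAtInf η) :
    ((∃ (ℓ₁ ℓ₂ : V n →L[ℝ] ℝ) (f₁ f₂ : V n → ℝ), ContDiff ℝ ∞ f₁ ∧ ContDiff ℝ ∞ f₂ ∧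
        AtInf f₁ (fun x => ℓ₁ x) ∧ AtInf f₂ (fun x => ℓ₂ x) ∧ ℓ₁ ≠ 0 ∧
        ∀ x X₁ X₂, HamAt η f₁ x X₁ → HamAt η f₂ x X₂ → 0 < η x ![X₁, X₂]) →
      ∃ (ℓ : V n →L[ℝ] ℝ) (f : V n → ℝ), ℓ ≠ 0 ∧ ContDiff ℝ ∞ f ∧ AtInf f (fun x => ℓ x) ∧
        ∀ γ : ℝ → V n, Differentiable ℝ γ → (∀ t, HamAt η f (γ t) (deriv γ t)) →
          ¬ ∃ C : ℝ, ∀ t, ‖γ t‖ ≤ C) ∧
    ((∃ (ℓ : V n →L[ℝ] ℝ) (f : V n → ℝ), ℓ ≠ 0 ∧ ContDiff ℝ ∞ f ∧ AtInf f (fun x => ℓ x) ∧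
        ∀ γ : ℝ → V n, Differentiable ℝ γ → (∀ t, HamAt η f (γ t) (deriv γ t)) →
          ¬ ∃ C : ℝ, ∀ t, ‖γ t‖ ≤ C) →
      ∃ (e : V n) (g : Equiv.Perm (V n)), e ≠ 0 ∧ Sm g ∧ Pres η g ∧
        AtInf (fun x => g x) (fun x => x + e) ∧ ∀ p : V n, ¬ ∃ C : ℝ, ∀ k : ℤ, ‖(g ^ k) p‖ ≤ C) ∧
    ((∃ (e : V n) (g : Equiv.Perm (V n)), e ≠ 0 ∧ Sm g ∧ Pres η g ∧
        AtInf (fun x => g x) (fun x => x + e) ∧ ∀ p : V n, ¬ ∃ C : ℝ, ∀ k : ℤ, ‖(g ^ k) p‖ ≤ C) →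
      Standard η) := by
  refine ⟨?_, hB2 n η hη, hB1 n η hη⟩
  rintro ⟨ℓ₁, ℓ₂, f₁, f₂, h1, h2, h3, h4, h5, h6⟩
  exact ⟨ℓ₁, f₁, h5, h1, h3, hB3 n η hη f₁ f₂ h1 h2 h6⟩

/-- HEAD C -/
theorem headC : HeadC := fun n hn i η hη hinv => hBA n η hη (hCB n η hη (hCR n hn i η hη hinv))

end Pool.Agent.Helper91.SY
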