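import Pool.Agent.Helper91.SY.Goals

/-!
# Project SY (MP_126465_gt): the final statements
-/

set_option autoImplicit false

open Set Filter Topology
open scoped ContDiff

namespace Pool.Agent.Helper91.SY

/-- the space `ℝ^(2n)`, `(x, y)` -/
abbrev V (n : ℕ) : Type := (Fin n → ℝ) × (Fin n → ℝ)

/-- `2`-forms on `ℝ^(2n)` -/
abbrev Form (n : ℕ) : Type := V n → V n [⋀^Fin 2]→L[ℝ] ℝ

/-- the standard symplectic form -/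
def w0 {n : ℕ} (u v : V n) : ℝ := ∑ i : Fin n, (u.1 i * v.2 i - v.1 i * u.2 i)

/-- `η` is a symplectic form on `ℝ^(2n)`, standard at infinity -/
structure StdAtInf {n : ℕ} (η : Form n) : Prop where
  smooth : ContDiff ℝ ∞ η
  closed : ∀ x u v w : V n,
    fderiv ℝ η x u ![v, w] - fderiv ℝ η x v ![u, w] + fderiv ℝ η x w ![u, v] = 0
  nondeg : ∀ x v : V n, v ≠ 0 → ∃ w, η x ![v, w] ≠ 0
  std : ∃ K : Set (V n), IsCompact K ∧ ∀ x, x ∉ K → ∀ u v : V n, η x ![u, v] = w0 u v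

/-- `φ` preserves `η` -/
def Pres {n : ℕ} (η : Form n) (φ : V n ≃ V n) : Prop :=
  ∀ x u v, η (φ x) ![fderiv ℝ (fun y => φ y) x u, fderiv ℝ (fun y => φ y) x v] = η x ![u, v]

/-- `(ℝ^(2n), η)` is symplectomorphic to `(ℝ^(2n), w0)` -/
def Standard {n : ℕ} (η : Form n) : Prop := ∃ φ : V n ≃ V n, Sm φ ∧
  ∀ x u v, w0 (fderiv ℝ (fun y => φ y) x u) (fderiv ℝ (fun y => φ y) x v) = η x ![u, v]

/-- the same with a diffeomorphism of compact support -/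
def StandardRel {n : ℕ} (η : Form n) : Prop := ∃ φ : V n ≃ V n, Sm φ ∧
  (∃ K : Set (V n), IsCompact K ∧ ∀ x, x ∉ K → φ x = x) ∧
  ∀ x u v, w0 (fderiv ℝ (fun y => φ y) x u) (fderiv ℝ (fun y => φ y) x v) = η x ![u, v]

/-- `a` and `b` agree outside a compact set -/
def AtInf {n : ℕ} {W : Type} (a b : V n → W) : Prop :=
  ∃ K : Set (V n), IsCompact K ∧ ∀ x, x ∉ K → a x = b x

/-- `X` is the Hamiltonian vector at `x` of the function `f`, for the form `η` -/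
def HamAt {n : ℕ} (η : Form n) (f : V n → ℝ) (x X : V n) : Prop :=
  ∀ v, η x ![X, v] = fderiv ℝ f x v

/-- commuting `η`-symplectic diffeomorphisms equal to given translations outside a compact set -/
def CommTrans {n : ℕ} (η : Form n) (e₁ e₂ : V n) : Prop := ∃ g₁ g₂ : V n ≃ V n,
  Sm g₁ ∧ Sm g₂ ∧ Pres η g₁ ∧ Pres η g₂ ∧ AtInf (fun x => g₁ x) (fun x => x + e₁) ∧
  AtInf (fun x => g₂ x) (fun x => x + e₂) ∧ ∀ x, g₁ (g₂ x) = g₂ (g₁ x)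

/-- weaker: only `g₁` is smooth and symplectic, `g₂` is any bijection -/
def CommTrans' {n : ℕ} (η : Form n) (e₁ e₂ : V n) : Prop := ∃ g₁ g₂ : V n ≃ V n,
  Sm g₁ ∧ Pres η g₁ ∧ AtInf (fun x => g₁ x) (fun x => x + e₁) ∧
  AtInf (fun x => g₂ x) (fun x => x + e₂) ∧ ∀ x, g₁ (g₂ x) = g₂ (g₁ x)

/-- functions equal to given linear functions outside a compact set, with constant bracket -/
def ConstBr {n : ℕ} (η : Form n) (ℓ₁ ℓ₂ : V n →L[ℝ] ℝ) : Prop := ∃ f₁ f₂ : V n → ℝ,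
  ContDiff ℝ ∞ f₁ ∧ ContDiff ℝ ∞ f₂ ∧ AtInf f₁ (fun x => ℓ₁ x) ∧ AtInf f₂ (fun x => ℓ₂ x) ∧
  ∃ c : ℝ, ∀ x X₁ X₂, HamAt η f₁ x X₁ → HamAt η f₂ x X₂ → η x ![X₁, X₂] = c

/-- the same, with a bracket which does not change sign -/
def NonnegBr {n : ℕ} (η : Form n) (ℓ₁ ℓ₂ : V n →L[ℝ] ℝ) : Prop := ∃ f₁ f₂ : V n → ℝ,
  ContDiff ℝ ∞ f₁ ∧ ContDiff ℝ ∞ f₂ ∧ AtInf f₁ (fun x => ℓ₁ x) ∧ AtInf f₂ (fun x => ℓ₂ x) ∧
  ∀ x X₁ X₂, HamAt η f₁ x X₁ → HamAt η f₂ x X₂ → 0 ≤ η x ![X₁, X₂]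

/-- the standard bracket of two linear functions is `0` -/
def Invol {n : ℕ} (ℓ₁ ℓ₂ : V n →L[ℝ] ℝ) : Prop := ∀ e₁ e₂ : V n,
  (∀ v, w0 e₁ v = ℓ₁ v) → (∀ v, w0 e₂ v = ℓ₂ v) → w0 e₁ e₂ = 0

/-- HEAD A -/
def HeadA : Prop := ∀ n : ℕ, 2 ≤ n → ∀ η : Form n, StdAtInf η →
  [StandardRel η,
    ∀ e₁ e₂ : V n, LinearIndependent ℝ ![e₁, e₂] → CommTrans η e₁ e₂,
    ∃ e₁ e₂ : V n, LinearIndependent ℝ ![e₁, e₂] ∧ CommTrans' η e₁ e₂,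
    ∀ ℓ₁ ℓ₂ : V n →L[ℝ] ℝ, LinearIndependent ℝ ![ℓ₁, ℓ₂] → ConstBr η ℓ₁ ℓ₂,
    ∃ ℓ₁ ℓ₂ : V n →L[ℝ] ℝ, LinearIndependent ℝ ![ℓ₁, ℓ₂] ∧ ConstBr η ℓ₁ ℓ₂,
    ∃ ℓ₁ ℓ₂ : V n →L[ℝ] ℝ, LinearIndependent ℝ ![ℓ₁, ℓ₂] ∧ Invol ℓ₁ ℓ₂ ∧ NonnegBr η ℓ₁ ℓ₂].TFAE

/-- HEAD B -/
def HeadB : Prop := ∀ n : ℕ, ∀ η : Form n, StdAtInf η →
  ((∃ (e : V n) (g : Equiv.Perm (V n)), e ≠ 0 ∧ Sm g ∧ Pres η g ∧
      AtInf (fun x => g x) (fun x => x + e) ∧ ∀ p : V n, ¬ ∃ C : ℝ, ∀ k : ℤ, ‖(g ^ k) p‖ ≤ C) →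
    Standard η) ∧
  ((∃ (ℓ : V n →L[ℝ] ℝ) (f : V n → ℝ), ℓ ≠ 0 ∧ ContDiff ℝ ∞ f ∧ AtInf f (fun x => ℓ x) ∧
      ∀ γ : ℝ → V n, Differentiable ℝ γ → (∀ t, HamAt η f (γ t) (deriv γ t)) →
        ¬ ∃ C : ℝ, ∀ t, ‖γ t‖ ≤ C) →
    Standard η) ∧
  ((∃ (ℓ₁ ℓ₂ : V n →L[ℝ] ℝ) (f₁ f₂ : V n → ℝ), ContDiff ℝ ∞ f₁ ∧ ContDiff ℝ ∞ f₂ ∧
      AtInf f₁ (fun x => ℓ₁ x) ∧ AtInf f₂ (fun x => ℓ₂ x) ∧ ℓ₁ ≠ 0 ∧
      ∀ x X₁ X₂, HamAt η f₁ x X₁ → HamAt η f₂ x X₂ → 0 < η x ![X₁, X₂]) →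
    Standard η)

/-- the rotation by the angle `θ` in the coordinates `(x_i, y_i)` -/
noncomputable def rotI {n : ℕ} (i : Fin n) (θ : ℝ) (z : V n) : V n :=
  (Function.update z.1 i (Real.cos θ * z.1 i - Real.sin θ * z.2 i),
    Function.update z.2 i (Real.sin θ * z.1 i + Real.cos θ * z.2 i))

/-- HEAD C -/
def HeadC : Prop := ∀ n : ℕ, 2 ≤ n → ∀ (i : Fin n) (η : Form n), StdAtInf η →
  (∀ (θ : ℝ) (x u v : V n), η (rotI i θ x) ![rotI i θ u, rotI i θ v] = η x ![u, v]) →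
  StandardRel η

/-! ## Assembly packets -/

/-- PACKET CV (alternating maps as bilinear maps).
Proof.  Compose `ContinuousAlternatingMap.toContinuousMultilinearMapCLM` (or the like) with two steps of
`continuousMultilinearCurryLeftEquiv`, or use finite dimension. -/
def StmtCV : Prop := ∀ n : ℕ, ∃ L : (V n [⋀^Fin 2]→L[ℝ] ℝ) →L[ℝ] (V n →L[ℝ] V n →L[ℝ] ℝ),
  ∀ (a : V n [⋀^Fin 2]→L[ℝ] ℝ) (u v : V n), L a u v = a ![u, v]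

/-- PACKET CW (the dictionary; from CV).
Proof.  `B x = L (η x)`, `fderiv ℝ B x u = L (fderiv ℝ η x u)` (chain rule); `B0 = L` of the standard form, i.e.
`∑ i, (fst i) ⊗ (snd i) - ..`, built from the coordinate functionals; `R` with `K ⊆ ball 0 R`, `R ≥ 0`.  `B x u u =
η x ![u, u] = 0`.  `w0 u v = 0` for all `v` implies `u = 0` (take `v` the coordinate vectors). -/
def StmtCW : Prop := ∀ (n : ℕ) (η : Form n), StdAtInf η →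
  ∃ (B : V n → V n →L[ℝ] V n →L[ℝ] ℝ) (B0 : V n →L[ℝ] V n →L[ℝ] ℝ) (R : ℝ), 0 ≤ R ∧ Symp B ∧
    Far R B B0 ∧ (∀ x u v, B x u v = η x ![u, v]) ∧ ∀ u v, B0 u v = w0 u v

/-- PACKET CX (linear algebra).
Proof.  `w0` is nondegenerate and bilinear, `V n` finite-dimensional: `ℓ ↦ e` with `w0 e = ℓ` is a linear
isomorphism (explicitly `e = (fun i => ℓ (0, single i 1), fun i => -ℓ (single i 1, 0))`).
(2): for independent vectors `e₁, e₂` there are linear functions `τ, τ₂` with `τ e₁ = 1`, `τ e₂ = 0`,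
`τ₂ e₁ = 0`, `τ₂ e₂ = 1` (dual basis of an extension to a basis, or of the span followed by an extension). -/
def StmtCX : Prop := ∀ n : ℕ,
  (∀ ℓ : V n →L[ℝ] ℝ, ∃ e : V n, ∀ v, w0 e v = ℓ v) ∧
  (∀ (ℓ₁ ℓ₂ : V n →L[ℝ] ℝ) (e₁ e₂ : V n), LinearIndependent ℝ ![ℓ₁, ℓ₂] →
    (∀ v, w0 e₁ v = ℓ₁ v) → (∀ v, w0 e₂ v = ℓ₂ v) → LinearIndependent ℝ ![e₁, e₂]) ∧
  (∀ e₁ e₂ : V n, LinearIndependent ℝ ![e₁, e₂] → ∃ τ τ₂ : V n →L[ℝ] ℝ,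
    τ e₁ = 1 ∧ τ e₂ = 0 ∧ τ₂ e₁ = 0 ∧ τ₂ e₂ = 1) ∧
  (∀ e : V n, e ≠ 0 → ∃ τ : V n →L[ℝ] ℝ, τ e = 1)

/-- PACKET AB (from the standard model; a implies b, c; from CX).
Proof.  `g_i = φ⁻¹ ∘ (· + e_i) ∘ φ`: smooth, preserves `η` (chain rule: `D φ(g_i x) D g_i(x) = D φ(x)`), and if
`x ∉ K` and `x + e_i ∉ K` then `g_i x = x + e_i` (`φ⁻¹ = id` off `K`, as `φ` maps the complement of `K`
identically onto itself); `K ∪ (K - e_i)` is compact.  `f_i = ℓ_i ∘ φ`; `w0 e_i v = ℓ_i v`; `X = (D φ(x))⁻¹ e_i`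
satisfies `HamAt`, and is the only such vector (nondegeneracy); so `η x ![X₁, X₂] = w0 e₁ e₂`. -/
def StmtAB : Prop := ∀ (n : ℕ) (η : Form n), StdAtInf η → StandardRel η →
  (∀ e₁ e₂ : V n, LinearIndependent ℝ ![e₁, e₂] → CommTrans η e₁ e₂) ∧
  ∀ ℓ₁ ℓ₂ : V n →L[ℝ] ℝ, LinearIndependent ℝ ![ℓ₁, ℓ₂] → ConstBr η ℓ₁ ℓ₂

/-- PACKET BA (commuting translations imply standard; from GI, IV, PS, RC, CW, CX).
Proof.  `B, B0, R` from CW, `R` enlarged so that `g₁, g₂` are the translations for `‖x‖ ≥ R`; `τ, τ₂` from CX.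
PS gives `ψ`, RC: `ψ` is the identity for `‖x‖ ≥ R'`, GI: bijective, IV: `e : V n ≃ V n` with `e = ψ`; take
`φ = e.symm`: `D φ(e x) D e(x) = id`, so `w0 (D φ(y) u) (D φ(y) v) = η y ![u, v]` from `Pull ψ (fun _ => B0) B`;
`φ` is the identity outside the closed ball of radius `R'` (as `e` maps the complement identically). -/
def StmtBA : Prop := ∀ (n : ℕ) (η : Form n), StdAtInf η →
  (∃ e₁ e₂ : V n, LinearIndependent ℝ ![e₁, e₂] ∧ CommTrans' η e₁ e₂) → StandardRel η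

/-- PACKET CB (constant bracket implies commuting translations; from TO, CM, CW, CX).
Proof.  `B, B0, R` from CW, `R` enlarged so that `f_i = ℓ_i` for `‖x‖ ≥ R`; `e_i` from CX; TO gives `X_i, Φ_i, g_i`;
`B (X₁) (X₂) = c`, CM: the flows commute, so `g₁ (g₂ x) = Φ₁ 1 (Φ₂ 1 x) = g₂ (g₁ x)`. -/
def StmtCB : Prop := ∀ (n : ℕ) (η : Form n), StdAtInf η →
  (∃ ℓ₁ ℓ₂ : V n →L[ℝ] ℝ, LinearIndependent ℝ ![ℓ₁, ℓ₂] ∧ ConstBr η ℓ₁ ℓ₂) →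
  ∃ e₁ e₂ : V n, LinearIndependent ℝ ![e₁, e₂] ∧ CommTrans' η e₁ e₂

/-- PACKET NB (a nonnegative bracket is `0`; from TO, HV, MS, CW, CX).
Proof.  As in CB; `ℓ₂ e₁ = w0 e₂ e₁ = 0` by `Invol`.  `g = g₁ = Φ₁ 1`.
`d/dt f₂(Φ₁ t x) = df₂(X₁) = B(X₂, X₁) = -B(X₁, X₂) ≤ 0` at `Φ₁ t x`.  So `f₂(g x) ≤ f₂(x)`, and MS gives
equality for every `x`; so the nonincreasing function `t ↦ f₂(Φ₁ t x)` is constant on `[0, 1]` and its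
derivative at `0` is `0`: `B x (X₁ x) (X₂ x) = 0` (`HamAt` determines `X₁ x`, `X₂ x`). -/
def StmtNB : Prop := ∀ (n : ℕ) (η : Form n), StdAtInf η →
  ∀ ℓ₁ ℓ₂ : V n →L[ℝ] ℝ, LinearIndependent ℝ ![ℓ₁, ℓ₂] → Invol ℓ₁ ℓ₂ → NonnegBr η ℓ₁ ℓ₂ →
  ConstBr η ℓ₁ ℓ₂

/-- PACKET HA (HEAD A; from AB, BA, CB, NB).
Proof.  For `n ≥ 2` there are independent vectors and functionals (coordinates `x_0, x_1`, which are in
involution); the cycle 1 → 2 → 3 → 1, 1 → 4 → 5 → 3, 4 → 6 (coordinates: the constant of `ConstBr η x_0 x_1` is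
`0`: look at a point far away, where `η` is standard), 6 → 5. -/
def StmtHA : Prop := StmtAB → StmtBA → StmtCB → StmtNB → HeadA

/-- PACKET B1 (HEAD B, part 1; from IV, PS, TP, CW, CX).
Proof.  `B, B0, R` from CW, `R` enlarged so that `g` is the translation by `e` for `‖x‖ ≥ R`; `τ e = 1` (CX);
PS gives `ψ`, TP: `ψ` is bijective, IV: `ε : V n ≃ V n` with `ε = ψ`, `Sm ε`; `φ = ε.symm`:
`D φ(ε x) D ε(x) = id`, so `w0 (D φ(y) u) (D φ(y) v) = η y ![u, v]` from `Pull ψ (fun _ => B0) B` (write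
`y = ε x`, `u = D ε(x) u'` with `u' = D φ(y) u`). -/
def StmtB1 : Prop := ∀ (n : ℕ) (η : Form n), StdAtInf η →
  (∃ (e : V n) (g : Equiv.Perm (V n)), e ≠ 0 ∧ Sm g ∧ Pres η g ∧
      AtInf (fun x => g x) (fun x => x + e) ∧ ∀ p : V n, ¬ ∃ C : ℝ, ∀ k : ℤ, ‖(g ^ k) p‖ ≤ C) →
    Standard η

/-- PACKET B2 (HEAD B, part 2 from part 1; from TO, CW, CX).
Proof.  `g = Φ 1` of TO.  If `‖(g ^ k) p‖ ≤ C` for all `k : ℤ` then `γ(t) = Φ t p` is bounded: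
`(g ^ k) p = Φ k p` and `Φ t p = Φ (t - k) (Φ k p)` with `k = ⌊t⌋` is in the compact set
`Φ([0, 1] × closedBall 0 C)`. -/
def StmtB2 : Prop := ∀ (n : ℕ) (η : Form n), StdAtInf η →
  (∃ (ℓ : V n →L[ℝ] ℝ) (f : V n → ℝ), ℓ ≠ 0 ∧ ContDiff ℝ ∞ f ∧ AtInf f (fun x => ℓ x) ∧
      ∀ γ : ℝ → V n, Differentiable ℝ γ → (∀ t, HamAt η f (γ t) (deriv γ t)) →
        ¬ ∃ C : ℝ, ∀ t, ‖γ t‖ ≤ C) →
  ∃ (e : V n) (g : Equiv.Perm (V n)), e ≠ 0 ∧ Sm g ∧ Pres η g ∧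
      AtInf (fun x => g x) (fun x => x + e) ∧ ∀ p : V n, ¬ ∃ C : ℝ, ∀ k : ℤ, ‖(g ^ k) p‖ ≤ C

/-- PACKET B3 (HEAD B, part 3 from part 2; from HV, CW).
Proof.  `f = f₁`.  Let `X₁, X₂` be the Hamiltonian fields (HV).  The continuous function
`β(x) = B x (X₁ x) (X₂ x) > 0` has a positive minimum `β₀` on the closed ball of radius `C`.  Along a
solution `γ` in this ball `(f₂ ∘ γ)' = df₂(X₁) = B(X₂, X₁) = -β ≤ -β₀`, so `f₂ ∘ γ` is unbounded,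
a contradiction. -/
def StmtB3 : Prop := ∀ (n : ℕ) (η : Form n), StdAtInf η →
  ∀ f₁ f₂ : V n → ℝ, ContDiff ℝ ∞ f₁ → ContDiff ℝ ∞ f₂ →
  (∀ x X₁ X₂, HamAt η f₁ x X₁ → HamAt η f₂ x X₂ → 0 < η x ![X₁, X₂]) →
  ∀ γ : ℝ → V n, Differentiable ℝ γ → (∀ t, HamAt η f₁ (γ t) (deriv γ t)) →
        ¬ ∃ C : ℝ, ∀ t, ‖γ t‖ ≤ C

/-- PACKET CR (rotation-invariant forms have a canonical pair; from RI, HI, RD, HP, BR, CW).
Proof.  `a = (single i 1, 0)`, `b = (0, single i 1)`, `p z = z.1 i`, `q z = z.2 i`, `c = (single j 1, 0)` with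
`j ≠ i`; `Rot a b p q θ = rotI i θ`; `w0 a v = v.2 i = q v`, `w0 b v = -v.1 i`.  `f₁ = p √(2h)`, `f₂ = q √(2h)`.
Outside the ball of radius `R` and off the axis `h = 1/2` (HI), on the axis (points with `‖x‖ > R`) too by
continuity (`h` is continuous and the complement of the axis is dense), so `f₁ = p`, `f₂ = q` there. -/
def StmtCR : Prop := ∀ n : ℕ, 2 ≤ n → ∀ (i : Fin n) (η : Form n), StdAtInf η →
  (∀ (θ : ℝ) (x u v : V n), η (rotI i θ x) ![rotI i θ u, rotI i θ v] = η x ![u, v]) →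
  ∃ ℓ₁ ℓ₂ : V n →L[ℝ] ℝ, LinearIndependent ℝ ![ℓ₁, ℓ₂] ∧ ConstBr η ℓ₁ ℓ₂

end Pool.Agent.Helper91.SY
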