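import Pool.Agent.Helper91.SY.Base

/-! Packet SY-NB: a nonnegative bracket is zero. -/

set_option autoImplicit false

open Set Filter Topology
open scoped ContDiff

namespace Pool.Agent.Helper91.SY

theorem w0_anti {n : ℕ} (u v : V n) : w0 u v = -w0 v u := by
  unfold w0
  rw [← Finset.sum_neg_distrib]
  refine Finset.sum_congr rfl fun i _ => by ring

theorem nb_ : StmtNB := by
  intro n η hη ℓ₁ ℓ₂ hind hinv h
  obtain ⟨f₁, f₂, hf₁, hf₂, ha₁, ha₂, hc⟩ := h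
  obtain ⟨B, B0, R₀, hR₀, hS, hFar, hB, hB0⟩ := hCW n η hη
  obtain ⟨r₁, hr₁⟩ := Pool.Agent.Helper86.SY.atInf_radius ha₁
  obtain ⟨r₂, hr₂⟩ := Pool.Agent.Helper86.SY.atInf_radius ha₂
  obtain ⟨c1, c2, -, -⟩ := Pool.Agent.Helper95.SY.cx_ n
  obtain ⟨e₁, he₁⟩ := c1 ℓ₁
  obtain ⟨e₂, he₂⟩ := c1 ℓ₂
  set R : ℝ := max R₀ (max r₁ r₂) with hR
  have hR0 : 0 ≤ R := hR₀.trans (le_max_left _ _)
  have hFar' : Far R B B0 := fun x hx => hFar x ((le_max_left _ _).trans hx)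
  have hf₁' : ∀ x, R ≤ ‖x‖ → f₁ x = ℓ₁ x := fun x hx =>
    hr₁ x (((le_max_left _ _).trans (le_max_right _ _)).trans hx)
  have hf₂' : ∀ x, R ≤ ‖x‖ → f₂ x = ℓ₂ x := fun x hx =>
    hr₂ x (((le_max_right _ _).trans (le_max_right _ _)).trans hx)
  obtain ⟨X₁, Φ₁, g₁, sX₁, hX₁, -, hΦ₁, -, hg₁, -, sg₁, pg₁, tg₁⟩ :=
    hTO (V n) B B0 R f₁ ℓ₁ e₁ hR0 hS hFar' hf₁ hf₁' (fun v => by rw [hB0]; exact he₁ v)
  obtain ⟨X₂, sX₂, hX₂⟩ := Pool.Agent.Helper69.SY.hv_ (V n) B f₂ hS hf₂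
  have hbr : ∀ x, 0 ≤ B x (X₁ x) (X₂ x) := by
    intro x
    rw [hB]
    refine hc x (X₁ x) (X₂ x) ?_ ?_
    · intro v
      rw [← hB]
      exact hX₁ x v
    · intro v
      rw [← hB]
      exact hX₂ x v
  have hanti : ∀ x u v, B x u v = -B x v u := by
    intro x u v
    have h1 := hS.alt x (u + v)
    simp only [map_add, ContinuousLinearMap.add_apply] at h1
    have h2 := hS.alt x u
    have h3 := hS.alt x v
    linarith
  have hle : ℓ₂ e₁ = 0 := by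
    rw [← he₂ e₁, w0_anti, hinv e₁ e₂ he₁ he₂, neg_zero]
  -- the derivative along the flow
  have hD : ∀ x t, HasDerivAt (fun s => f₂ (Φ₁ s x))
      (-B (Φ₁ t x) (X₁ (Φ₁ t x)) (X₂ (Φ₁ t x))) t := by
    intro x t
    have hd : DifferentiableAt ℝ f₂ (Φ₁ t x) := (hf₂.differentiable (by simp)) _
    have h1 := hd.hasFDerivAt.comp_hasDerivAt t (hΦ₁.deriv t x)
    refine h1.congr_deriv ?_
    rw [← hX₂, hanti]
  have hmono : ∀ x, Antitone (fun s => f₂ (Φ₁ s x)) := by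
    intro x
    refine antitone_of_deriv_nonpos (fun t => (hD x t).differentiableAt) fun t => ?_
    rw [(hD x t).deriv]
    have := hbr (Φ₁ t x)
    linarith
  have hle1 : ∀ x, f₂ (g₁ x) ≤ f₂ x := by
    intro x
    have h1 := hmono x (zero_le_one : (0 : ℝ) ≤ 1)
    simp only [hΦ₁.zero] at h1
    rw [hg₁]
    exact h1
  have hR1 : R ≤ R + 1 + ‖e₁‖ := by have := norm_nonneg e₁; linarith
  have hms := Pool.Agent.Helper32.SY.ms_ (V n) B B0 (R + 1 + ‖e₁‖) e₁ ℓ₂ g₁ f₂ hS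
    (fun x hx => hFar' x (hR1.trans hx)) sg₁ pg₁ tg₁ hf₂.continuous
    (fun x hx => hf₂' x (hR1.trans hx)) hle hle1
  have hzero : ∀ x, B x (X₁ x) (X₂ x) = 0 := by
    intro x
    have hF : ∀ t ∈ Icc (0 : ℝ) 1, f₂ (Φ₁ t x) = f₂ x := by
      intro t ht
      have h1 := hmono x ht.1
      have h2 := hmono x ht.2
      simp only [hΦ₁.zero] at h1
      have h3 := hms x
      rw [hg₁] at h3
      simp only at h2
      linarith
    have h1 : HasDerivWithinAt (fun s => f₂ (Φ₁ s x)) (-B (Φ₁ 0 x) (X₁ (Φ₁ 0 x)) (X₂ (Φ₁ 0 x)))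
        (Icc 0 1) 0 := (hD x 0).hasDerivWithinAt
    have h2 : HasDerivWithinAt (fun s => f₂ (Φ₁ s x)) 0 (Icc (0 : ℝ) 1) 0 :=
      (hasDerivWithinAt_const (0 : ℝ) (Icc (0 : ℝ) 1) (f₂ x)).congr (fun t ht => hF t ht)
        (hF 0 ⟨le_rfl, zero_le_one⟩)
    have h3 := (uniqueDiffOn_Icc_zero_one (0 : ℝ) ⟨le_rfl, zero_le_one⟩).eq_deriv _ h1 h2
    rw [hΦ₁.zero] at h3
    linarith
  refine ⟨f₁, f₂, hf₁, hf₂, ha₁, ha₂, 0, ?_⟩
  intro x Y₁ Y₂ hY₁ hY₂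
  have e1 : Y₁ = X₁ x := by
    refine sub_eq_zero.1 (hS.nondeg x _ fun v => ?_)
    rw [map_sub, ContinuousLinearMap.sub_apply, hB, hY₁ v, hX₁ x v, sub_self]
  have e2 : Y₂ = X₂ x := by
    refine sub_eq_zero.1 (hS.nondeg x _ fun v => ?_)
    rw [map_sub, ContinuousLinearMap.sub_apply, hB, hY₂ v, hX₂ x v, sub_self]
  rw [e1, e2, ← hB]
  exact hzero x

end Pool.Agent.Helper91.SY
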